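import Pool.Agent.W969.MC.Ham1

/-! Hamilton cycles: the gadget in which the two halves of a constraint choose their copies
independently. -/

set_option autoImplicit false
set_option linter.unusedSectionVars false
set_option linter.unusedVariables false

namespace Pool.Agent.TH708.Ham

open Finset Pool.Agent.H545R2 Pool.Agent.W969.MC

/-- leaves -/
abbrev LeafD (m t b2 u : ℕ) : Type :=
  (Iv m × Fin 2 × Pt b2 t × (Fin u → Bool)) ⊕ ((Iv m × Fin 2) × Fin u × Bool)

instance instDLD (m t b2 u : ℕ) : DecidableEq (LeafD m t b2 u) := instDecidableEqSum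

/-- rows -/
abbrev RowD (m t u : ℕ) : Type := (Fin m × Fin t) ⊕ ((Iv m × Fin 2) × Fin u)

/-- positions of rows -/
abbrev PosD (b2 t u : ℕ) : Type :=
  (Fin 2 × Av b2 × Pt b2 t × (Fin u → Bool)) ⊕ (Bool × Bool)

section

variable {m t b2 u : ℕ} (π : Fin 2 → Av b2 → Equiv.Perm (Fin m))

/-- attachments of leaves to rows -/
def attD : RowD m t u → PosD b2 t u → Option (LeafD m t b2 u × Bool)
  | Sum.inl (v, jj), Sum.inl (e, a, ρ, j) =>
      some (Sum.inl ((e, (π e a).symm v), a.1, ρ, j), !(ρ a.2 jj))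
  | Sum.inl _, Sum.inr _ => none
  | Sum.inr (i, c), Sum.inl (e, a, ρ, j) => some (Sum.inl (i.1, i.2, ρ, j), !(j c))
  | Sum.inr (i, c), Sum.inr (false, β) => some (Sum.inr (i, c, β), β)
  | Sum.inr (i, c), Sum.inr (true, β) => some (Sum.inr (((nxt m).symm i.1, i.2), c, β), !β)

/-- a leaf is attached to a row of the right mode -/
def CovD (z : RowD m t u → Bool) (a : LeafD m t b2 u) : Prop :=
  ∃ r p, attD π r p = some (a, z r)

lemma covD_leaf (z : RowD m t u → Bool) (i : Iv m) (s : Fin 2) (ρ : Pt b2 t) (j : Fin u → Bool) :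
    CovD π z (Sum.inl (i, s, ρ, j)) ↔
      (∃ t' jj, z (Sum.inl (hv π i (s, t'), jj)) ≠ ρ t' jj) ∨
        (b2 ≠ 0 ∧ ∃ c, z (Sum.inr ((i, s), c)) ≠ j c) := by
  constructor
  · rintro ⟨r, p, h⟩
    rcases r with ⟨v, jj⟩ | ⟨i', c⟩
    · rcases p with ⟨e, a, ρ', j'⟩ | ⟨β, β'⟩
      · left
        simp only [attD, Option.some.injEq, Prod.mk.injEq, Sum.inl.injEq] at h
        obtain ⟨⟨h1, h2, h3, h4⟩, h5⟩ := h
        subst h3 h4
        refine ⟨a.2, jj, ?_⟩
        have h6 : hv π i (s, a.2) = v := by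
          rw [← h1, ← h2]
          simp [hv]
        rw [h6]
        exact bne_of h5
      · simp [attD] at h
    · rcases p with ⟨e, a, ρ', j'⟩ | ⟨β, β'⟩
      · right
        simp only [attD, Option.some.injEq, Prod.mk.injEq, Sum.inl.injEq] at h
        obtain ⟨⟨h1, h2, h3, h4⟩, h5⟩ := h
        subst h1 h2 h3 h4
        refine ⟨?_, c, bne_of h5⟩
        rintro rfl
        exact a.2.elim0
      · cases β <;> simp [attD] at h
  · rintro (⟨t', jj, h⟩ | ⟨hb, c, h⟩)
    · refine ⟨Sum.inl (hv π i (s, t'), jj), Sum.inl (i.1, (s, t'), ρ, j), ?_⟩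
      show some (Sum.inl ((i.1, (π i.1 (s, t')).symm (hv π i (s, t'))), s, ρ, j), !(ρ t' jj)) =
        some ((Sum.inl (i, s, ρ, j) : LeafD m t b2 u), z (Sum.inl (hv π i (s, t'), jj)))
      rw [of_bne h]
      unfold hv
      rw [Equiv.symm_apply_apply]
    · refine ⟨Sum.inr ((i, s), c), Sum.inl (s, (0, ⟨0, Nat.pos_of_ne_zero hb⟩), ρ, j), ?_⟩
      simp only [attD, Option.some.injEq, Prod.mk.injEq, true_and]
      exact of_bne h

lemma covD_eq (z : RowD m t u → Bool) (i : Iv m × Fin 2) (c : Fin u) (β : Bool) :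
    CovD π z (Sum.inr (i, c, β)) ↔
      z (Sum.inr (i, c)) = β ∨ z (Sum.inr ((nxt m i.1, i.2), c)) = !β := by
  constructor
  · rintro ⟨r, p, h⟩
    rcases r with ⟨v, jj⟩ | ⟨i', c'⟩
    · rcases p with ⟨e, a, ρ', j'⟩ | ⟨β', β''⟩
      · simp [attD] at h
      · simp [attD] at h
    · rcases p with ⟨e, a, ρ', j'⟩ | ⟨β', β''⟩
      · simp [attD] at h
      · cases β'
        · simp only [attD, Option.some.injEq, Prod.mk.injEq, Sum.inr.injEq] at h
          obtain ⟨⟨h1, h2, h3⟩, h5⟩ := h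
          subst h1 h2 h3
          exact Or.inl h5.symm
        · simp only [attD, Option.some.injEq, Prod.mk.injEq, Sum.inr.injEq] at h
          obtain ⟨⟨h1, h2, h3⟩, h5⟩ := h
          subst h2 h3
          right
          rw [← h1, Equiv.apply_symm_apply]
          exact h5.symm
  · rintro (h | h)
    · exact ⟨Sum.inr (i, c), Sum.inr (false, β), by simp [attD, h]⟩
    · exact ⟨Sum.inr ((nxt m i.1, i.2), c), Sum.inr (true, β), by simp [attD, h]⟩

end

/-- the copies -/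
abbrev CpD (u : ℕ) : Type := (Fin u → Bool) × (Fin u → Bool)

section rel

variable {m t b2 u : ℕ} (y : CpD u → Set (Iv m × (Av b2 → (Fin t → Bool))))

/-- steps of the path through the leaves -/
def HhD (a a' : LeafD m t b2 u) : Prop :=
  (∃ i ρ ρ' j j', a = Sum.inl (i, 0, ρ, j) ∧ a' = Sum.inl (i, 1, ρ', j') ∧
    (i, jn ρ ρ') ∈ y (j, j')) ∨
  ∃ i i' ρ ρ' j j', ord i' = ord i + 1 ∧ a = Sum.inl (i, 1, ρ, j) ∧ a' = Sum.inl (i', 0, ρ', j')

/-- first leaves -/
def HsD (a : LeafD m t b2 u) : Prop := ∃ i ρ j, ord i = 0 ∧ a = Sum.inl (i, 0, ρ, j)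

/-- last leaves -/
def HeD (a : LeafD m t b2 u) : Prop := ∃ i ρ j, ord i + 1 = 2 * m ∧ a = Sum.inl (i, 1, ρ, j)

end rel

end Pool.Agent.TH708.Ham
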