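import Pool.Agent.TH708.Ham.H1
import Pool.Agent.W969.MC.Ham2

/-! Hamilton cycles: correctness of the gadget. -/

set_option linter.unusedSectionVars false
set_option linter.unusedVariables false

namespace Pool.Agent.TH708.Ham

open Finset Pool.Agent.H545R2 Pool.Agent.W969.MC

section

variable {m t b2 u B R : ℕ} (π : Fin 2 → Av b2 → Equiv.Perm (Fin m))
  (y : CpD u → Set (Iv m × (Av b2 → (Fin t → Bool))))
  (eR : RowD m t u ≃ Fin B) (eP : PosD b2 t u ≃ Fin R)

/-- attachments with numbered rows and positions -/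
def atnD (i : Fin B) (k : Fin R) : Option (LeafD m t b2 u × Bool) := attD π (eR.symm i) (eP.symm k)

/-- the ports -/
abbrev PTD (m t b2 u B R : ℕ) : Type := Sg B R 1 (LeafD m t b2 u) × Bool

section fwd

variable {π y eR eP} {ν : PTD m t b2 u B R → PTD m t b2 u B R}

lemma uniq (hν : Matching (atnD π eR eP) (fun _ _ _ => True) HsD HeD (HhD y) False ν)
    (hside : ∀ a : LeafD m t b2 u, (∃ (s : Bool) (a' : LeafD m t b2 u) (s' : Bool),
      ν (.leaf a, s) = (.leaf a', s')) ∨ ν (.leaf a, false) = (.fin, true) →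
      ((HsD a ∧ ν (.leaf a, false) = (.fin, true)) ∨
            ∃ a', HhD y a' a ∧ ν (.leaf a, false) = (.leaf a', true))) :
    ∀ (K : ℕ) (i : Iv m) (s : Fin 2), 2 * ord i + s.val = K →
      ∀ (ρ ρ' : Pt b2 t) (j j' : Fin u → Bool),
      ((HsD (Sum.inl (i, s, ρ, j) : LeafD m t b2 u) ∧
        ν (.leaf (Sum.inl (i, s, ρ, j)), false) = (.fin, true)) ∨
        ∃ a', HhD y a' (Sum.inl (i, s, ρ, j)) ∧
          ν (.leaf (Sum.inl (i, s, ρ, j)), false) = (.leaf a', true)) →
      ((HsD (Sum.inl (i, s, ρ', j') : LeafD m t b2 u) ∧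
        ν (.leaf (Sum.inl (i, s, ρ', j')), false) = (.fin, true)) ∨
        ∃ a', HhD y a' (Sum.inl (i, s, ρ', j')) ∧
          ν (.leaf (Sum.inl (i, s, ρ', j')), false) = (.leaf a', true)) →
      ρ = ρ' ∧ j = j' := by
  intro K
  induction K with
  | zero =>
    intro i s hK ρ ρ' j j' h1 h2
    have hs : s = 0 := by
      apply Fin.ext
      show s.val = 0
      omega
    have hi : ord i = 0 := by omega
    subst hs
    have key : ∀ (ρ : Pt b2 t) (j : Fin u → Bool),
        ((HsD (Sum.inl (i, (0 : Fin 2), ρ, j) : LeafD m t b2 u) ∧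
        ν (.leaf (Sum.inl (i, 0, ρ, j)), false) = (.fin, true)) ∨
        ∃ a', HhD y a' (Sum.inl (i, 0, ρ, j)) ∧
          ν (.leaf (Sum.inl (i, 0, ρ, j)), false) = (.leaf a', true)) →
        ν (.leaf (Sum.inl (i, 0, ρ, j)), false) = (.fin, true) := by
      rintro ρ j (⟨_, h⟩ | ⟨a', h, _⟩)
      · exact h
      · exfalso
        rcases h with ⟨i1, ρ1, ρ2, j1, j2, _, h, _⟩ | ⟨i1, i2, ρ1, ρ2, j1, j2, h0, _, h⟩
        · simp only [Sum.inl.injEq, Prod.mk.injEq] at h
          exact absurd h.2.1 (by decide)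
        · simp only [Sum.inl.injEq, Prod.mk.injEq] at h
          rw [← h.1] at h0
          omega
    have e := (key ρ j h1).trans (key ρ' j' h2).symm
    have e2 := congrArg ν e
    rw [hν.inv, hν.inv] at e2
    simp only [Prod.mk.injEq, Sg.leaf.injEq, Sum.inl.injEq, true_and, and_true] at e2
    exact e2
  | succ K ih =>
    intro i s hK ρ ρ' j j' h1 h2
    have key : ∃ (i0 : Iv m) (s0 : Fin 2), 2 * ord i0 + s0.val = K ∧
        ∀ (ρ : Pt b2 t) (j : Fin u → Bool),
        ((HsD (Sum.inl (i, s, ρ, j) : LeafD m t b2 u) ∧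
        ν (.leaf (Sum.inl (i, s, ρ, j)), false) = (.fin, true)) ∨
        ∃ a', HhD y a' (Sum.inl (i, s, ρ, j)) ∧
          ν (.leaf (Sum.inl (i, s, ρ, j)), false) = (.leaf a', true)) →
        ∃ (ρ0 : Pt b2 t) (j0 : Fin u → Bool),
          ν (.leaf (Sum.inl (i, s, ρ, j)), false) = (.leaf (Sum.inl (i0, s0, ρ0, j0)), true) := by
      by_cases hs : s = 0
      · subst hs
        have hi : 0 < ord i := by
          have : (0 : Fin 2).val = 0 := rfl
          omega
        refine ⟨finProdFinEquiv.symm ⟨ord i - 1, by have := ord_lt i; omega⟩, 1, ?_, ?_⟩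
        · have e : ord (finProdFinEquiv.symm (⟨ord i - 1, by have := ord_lt i; omega⟩ :
              Fin (2 * m)) : Iv m) = ord i - 1 := by
            unfold ord
            rw [Equiv.apply_symm_apply]
          rw [e]
          have h1 : (1 : Fin 2).val = 1 := rfl
          have h0 : (0 : Fin 2).val = 0 := rfl
          omega
        · rintro ρ j (⟨⟨i1, ρ1, j1, h, h'⟩, _⟩ | ⟨a', h, h'⟩)
          · exfalso
            simp only [Sum.inl.injEq, Prod.mk.injEq] at h'
            rw [← h'.1] at h
            omega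
          · rcases h with ⟨i1, ρ1, ρ2, j1, j2, _, h, _⟩ | ⟨i1, i2, ρ1, ρ2, j1, j2, h0, h3, h⟩
            · exfalso
              simp only [Sum.inl.injEq, Prod.mk.injEq] at h
              exact absurd h.2.1 (by decide)
            · simp only [Sum.inl.injEq, Prod.mk.injEq] at h
              refine ⟨ρ1, j1, ?_⟩
              rw [h', h3]
              have e : i1 = finProdFinEquiv.symm ⟨ord i - 1, by have := ord_lt i; omega⟩ := by
                apply ord_inj
                have e : ord (finProdFinEquiv.symm (⟨ord i - 1, by have := ord_lt i; omega⟩ :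
                    Fin (2 * m)) : Iv m) = ord i - 1 := by
                  unfold ord
                  rw [Equiv.apply_symm_apply]
                rw [e, h.1, h0]
                omega
              rw [← e]
      · have hs1 : s = 1 := by
          apply Fin.ext
          have := s.isLt
          have h3 : s.val ≠ 0 := fun h => hs (Fin.ext h)
          show s.val = 1
          omega
        subst hs1
        refine ⟨i, 0, ?_, ?_⟩
        · have h1 : (1 : Fin 2).val = 1 := rfl
          have h0 : (0 : Fin 2).val = 0 := rfl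
          omega
        · rintro ρ j (⟨⟨i1, ρ1, j1, h, h'⟩, _⟩ | ⟨a', h, h'⟩)
          · exfalso
            simp only [Sum.inl.injEq, Prod.mk.injEq] at h'
            exact absurd h'.2.1 (by decide)
          · rcases h with ⟨i1, ρ1, ρ2, j1, j2, h3, h, _⟩ | ⟨i1, i2, ρ1, ρ2, j1, j2, h0, h3, h⟩
            · simp only [Sum.inl.injEq, Prod.mk.injEq] at h
              refine ⟨ρ1, j1, ?_⟩
              rw [h', h3, h.1]
            · exfalso
              simp only [Sum.inl.injEq, Prod.mk.injEq] at h
              exact absurd h.2.1 (by decide)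
    obtain ⟨i0, s0, hK0, key⟩ := key
    obtain ⟨ρ0, j0, g1⟩ := key ρ j h1
    obtain ⟨ρ0', j0', g2⟩ := key ρ' j' h2
    have g1' := congrArg ν g1
    rw [hν.inv] at g1'
    have g2' := congrArg ν g2
    rw [hν.inv] at g2'
    obtain ⟨e1, e2⟩ := ih i0 s0 hK0 ρ0 ρ0' j0 j0' (hside _ (Or.inl ⟨_, _, _, g1'.symm⟩))
      (hside _ (Or.inl ⟨_, _, _, g2'.symm⟩))
    subst e1 e2
    have e3 := g1'.trans g2'.symm
    simp only [Prod.mk.injEq, Sg.leaf.injEq, Sum.inl.injEq, true_and, and_true] at e3
    exact e3

end fwd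

theorem ham_fwd (hb2 : b2 ≠ 0) (zf : ℕ)
    (h : (segGraph (GR (atnD π eR eP) (fun _ _ _ => True) HsD HeD (HhD y) False)
      (.fin : Sg B R 1 (LeafD m t b2 u)) zf).IsHamiltonian) (hm : 0 < m) :
    ∃ js : Fin 2 → (Fin u → Bool), ∃ x : Fin m → (Fin t → Bool),
      ∀ i, (i, fun a => x (hv π i a)) ∈ y (js 0, js 1) := by
  classical
  obtain ⟨ν, n1, n2, n3⟩ := seg_matching (by
    rw [Fintype.card_sum, Fintype.card_prod, Fintype.card_option, Fintype.card_bool]
    have : 0 < Fintype.card (Sg B R 1 (LeafD m t b2 u)) := Fintype.card_pos_iff.mpr ⟨.fin⟩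
    omega) h
  have hν : Matching (atnD π eR eP) (fun _ _ _ => True) HsD HeD (HhD y) False ν := ⟨n1, n2, n3⟩
  obtain ⟨z', -, hmode⟩ := hν.modes
  set z : RowD m t u → Bool := fun r => strand (z' (eR r)) 1 with hz
  have hcovz : ∀ a : LeafD m t b2 u, (∃ i k, atnD π eR eP i k = some (a, strand (z' i) 1)) →
      CovD π z a := by
    rintro a ⟨i, k, hik⟩
    refine ⟨eR.symm i, eP.symm k, ?_⟩
    unfold atnD at hik
    rw [hik, hz]
    simp
  have hsd := fun a => hν.sides hmode a
  -- hub leaves
  have hhub : ∀ a : LeafD m t b2 u, ¬ CovD π z a →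
      ((HsD a ∧ ν (.leaf a, false) = (.fin, true)) ∨
            ∃ a', HhD y a' a ∧ ν (.leaf a, false) = (.leaf a', true)) ∧
          ((HeD a ∧ ∃ (i : Fin B) (t : Fin (1 + 1)), i.val = 0 ∧ t.val = 0 ∧
              ν (.leaf a, true) = (.link i t false, false)) ∨
            ∃ a', HhD y a a' ∧ ν (.leaf a, true) = (.leaf a', false)) := by
    intro a ha
    rcases hsd a with ⟨h1, _⟩ | h1
    · exact absurd (hcovz a h1) ha
    · exact h1
  have hside : ∀ a : LeafD m t b2 u, (∃ (s : Bool) (a' : LeafD m t b2 u) (s' : Bool),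
      ν (.leaf a, s) = (.leaf a', s')) ∨ ν (.leaf a, false) = (.fin, true) →
      ((HsD a ∧ ν (.leaf a, false) = (.fin, true)) ∨
            ∃ a', HhD y a' a ∧ ν (.leaf a, false) = (.leaf a', true)) := by
    intro a ha
    rcases hsd a with ⟨_, ⟨i1, x1, s1, h1⟩, ⟨i2, x2, s2, h2⟩⟩ | ⟨h1, _⟩
    · exfalso
      rcases ha with ⟨s, a', s', h3⟩ | h3
      · cases s
        · rw [h1] at h3
          simp at h3
        · rw [h2] at h3
          simp at h3
      · rw [h1] at h3
        simp at h3
    · exact h1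
  -- selector bits agree
  have hsel : ∀ (i : Iv m × Fin 2) c, z (Sum.inr ((nxt m i.1, i.2), c)) = z (Sum.inr (i, c)) := by
    intro i c
    have hc : ∀ β, CovD π z (Sum.inr (i, c, β)) := by
      intro β
      by_contra hcon
      obtain ⟨h1, _⟩ := hhub _ hcon
      rcases h1 with ⟨⟨i1, ρ1, j1, _, h2⟩, _⟩ | ⟨a', h2, _⟩
      · simp at h2
      · rcases h2 with ⟨i1, ρ1, ρ2, j1, j2, _, h3, _⟩ | ⟨i1, i2, ρ1, ρ2, j1, j2, _, _, h3⟩
        · simp at h3
        · simp at h3
    have h1 := (covD_eq π z i c true).mp (hc true)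
    have h2 := (covD_eq π z i c false).mp (hc false)
    exact sel_aux h1 h2
  let i0 : Iv m := (0, ⟨0, hm⟩)
  set js : Fin 2 → (Fin u → Bool) := fun s c => z (Sum.inr ((i0, s), c)) with hjs
  have hsel' : ∀ i s c, z (Sum.inr ((i, s), c)) = js s c := fun i s c =>
    nxt_const (fun i => z (Sum.inr ((i, s), c))) (fun i => hsel (i, s) c) i i0
  set x : Fin m → (Fin t → Bool) := fun v jj => z (Sum.inl (v, jj)) with hx
  have hact : ∀ (i : Iv m) (s : Fin 2),
      ¬ CovD π z (Sum.inl (i, s, (fun t' => x (hv π i (s, t'))), js s)) := by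
    intro i s hc
    rcases (covD_leaf π z i s _ (js s)).mp hc with ⟨t', jj, h1⟩ | ⟨_, c, h1⟩
    · exact h1 rfl
    · exact h1 (hsel' i s c)
  refine ⟨js, x, ?_⟩
  intro i
  obtain ⟨_, h1⟩ := hhub _ (hact i 0)
  rcases h1 with ⟨⟨i1, ρ1, j1, _, h2⟩, _⟩ | ⟨a', h2, h3⟩
  · exfalso
    simp only [Sum.inl.injEq, Prod.mk.injEq] at h2
    exact absurd h2.2.1 (by decide)
  · rcases h2 with ⟨i1, ρ1, ρ2, j1, j2, h4, h5, h6⟩ | ⟨i1, i2, ρ1, ρ2, j1, j2, _, h4, h5⟩
    · simp only [Sum.inl.injEq, Prod.mk.injEq, true_and] at h4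
      obtain ⟨h7, h8, h9⟩ := h4
      subst h7 h5
      have h10 := congrArg ν h3
      rw [hν.inv] at h10
      obtain ⟨h11, h12⟩ := uniq hν hside _ i 1 rfl ρ2 (fun t' => x (hv π i (1, t'))) j2 (js 1)
        (hside _ (Or.inl ⟨_, _, _, h10.symm⟩)) (hhub _ (hact i 1)).1
      rw [h12, ← h8, ← h9, h11] at h6
      have e : jn (fun t' => x (hv π i (0, t'))) (fun t' => x (hv π i (1, t'))) =
          fun a => x (hv π i a) := by
        funext a
        unfold jn
        obtain ⟨s, t'⟩ := a
        by_cases hs : s = 0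
        · subst hs
          rw [if_pos rfl]
        · have hs1 : s = 1 := by
            apply Fin.ext
            have := s.isLt
            have h3 : s.val ≠ 0 := fun h => hs (Fin.ext h)
            show s.val = 1
            omega
          subst hs1
          rw [if_neg hs]
      rw [e] at h6
      exact h6
    · exfalso
      simp only [Sum.inl.injEq, Prod.mk.injEq] at h4
      exact absurd h4.2.1 (by decide)

/-- the two leaves of a constraint on the path -/
def pr2 (x : Fin m → (Fin t → Bool)) (js : Fin 2 → (Fin u → Bool)) (k : Fin (2 * m)) :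
    List (LeafD m t b2 u) :=
  [Sum.inl (finProdFinEquiv.symm k, 0, (fun t' => x (hv π (finProdFinEquiv.symm k) (0, t'))), js 0),
    Sum.inl (finProdFinEquiv.symm k, 1, (fun t' => x (hv π (finProdFinEquiv.symm k) (1, t'))), js 1)]

/-- the leaves on the path -/
def hubL (x : Fin m → (Fin t → Bool)) (js : Fin 2 → (Fin u → Bool)) : List (LeafD m t b2 u) :=
  (List.finRange (2 * m)).flatMap (pr2 π x js)

lemma mem_hubL (x : Fin m → (Fin t → Bool)) (js : Fin 2 → (Fin u → Bool)) (a : LeafD m t b2 u) :
    a ∈ hubL π x js ↔ ∃ (i : Iv m) (s : Fin 2),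
      a = Sum.inl (i, s, (fun t' => x (hv π i (s, t'))), js s) := by
  unfold hubL
  rw [List.mem_flatMap]
  constructor
  · rintro ⟨k, _, hk⟩
    unfold pr2 at hk
    rw [List.mem_cons, List.mem_singleton] at hk
    rcases hk with rfl | rfl
    · exact ⟨finProdFinEquiv.symm k, 0, rfl⟩
    · exact ⟨finProdFinEquiv.symm k, 1, rfl⟩
  · rintro ⟨i, s, rfl⟩
    refine ⟨finProdFinEquiv i, List.mem_finRange _, ?_⟩
    unfold pr2
    rw [Equiv.symm_apply_apply, List.mem_cons, List.mem_singleton]
    by_cases hs : s = 0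
    · left
      rw [hs]
    · right
      have hs1 : s = 1 := by
        apply Fin.ext
        have := s.isLt
        have h3 : s.val ≠ 0 := fun h => hs (Fin.ext h)
        show s.val = 1
        omega
      rw [hs1]

lemma ord_symm (k : Fin (2 * m)) : ord (finProdFinEquiv.symm k : Iv m) = k.val := by
  unfold ord
  rw [Equiv.apply_symm_apply]

theorem ham_back (hb2 : b2 ≠ 0) (hm : 0 < m) (hB : 0 < B) (zf : ℕ) (js : Fin 2 → (Fin u → Bool))
    (x : Fin m → (Fin t → Bool)) (h : ∀ i, (i, fun a => x (hv π i a)) ∈ y (js 0, js 1)) :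
    (segGraph (GR (atnD π eR eP) (fun _ _ _ => True) HsD HeD (HhD y) False)
      (.fin : Sg B R 1 (LeafD m t b2 u)) zf).IsHamiltonian := by
  classical
  set z : RowD m t u → Bool := Sum.elim (fun p => x p.1 p.2) (fun p => js p.1.2 p.2) with hz
  set z' : Fin B → ℕ → Bool := fun i _ => z (eR.symm i) with hz'
  have hstr : ∀ i, strand (z' i) 1 = z (eR.symm i) := by
    intro i
    show xor (strand (z' i) 0) (z' i 0) = _
    show xor false (z (eR.symm i)) = _
    simp
  have hcov : ∀ a : LeafD m t b2 u, a ∉ hubL π x js →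
      ∃ ik : Fin B × Fin R, atnD π eR eP ik.1 ik.2 = some (a, strand (z' ik.1) 1) := by
    intro a ha
    have hC : CovD π z a := by
      rcases a with ⟨i, s, ρ, j⟩ | ⟨i, c, β⟩
      · rw [covD_leaf]
        by_contra hcon
        push Not at hcon
        obtain ⟨h1, h2⟩ := hcon
        apply ha
        rw [mem_hubL]
        refine ⟨i, s, ?_⟩
        have e1 : ρ = fun t' => x (hv π i (s, t')) := by
          funext t' jj
          exact (h1 t' jj).symm
        have e2 : j = js s := by
          funext c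
          exact (h2 hb2 c).symm
        rw [e1, e2]
      · rw [covD_eq]
        show js i.2 c = β ∨ js i.2 c = !β
        cases js i.2 c <;> cases β <;> simp
    obtain ⟨r, p, hrp⟩ := hC
    refine ⟨(eR r, eP p), ?_⟩
    show attD π (eR.symm (eR r)) (eP.symm (eP p)) = _
    rw [hstr, Equiv.symm_apply_apply, Equiv.symm_apply_apply, hrp]
  have hne : Nonempty (Fin B × Fin R) := ⟨(⟨0, hB⟩, eP (Sum.inr (false, false)))⟩
  choose! cv hcv using hcov
  refine gadget_back hB zf z' (fun _ _ _ => trivial) (hubL π x js) ?_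
    (fun a => if a ∈ hubL π x js then none else some (cv a)) ?_ ?_ ?_ ?_ ?_ ?_
  · -- nodup
    unfold hubL
    rw [List.nodup_flatMap]
    refine ⟨fun k _ => ?_, ?_⟩
    · unfold pr2
      rw [List.nodup_cons]
      refine ⟨?_, List.nodup_singleton _⟩
      rw [List.mem_singleton]
      intro he
      simp only [Sum.inl.injEq, Prod.mk.injEq] at he
      exact absurd he.2.1 (by decide)
    · refine (List.nodup_finRange _).imp ?_
      intro k k' hkk
      rw [Function.onFun, List.disjoint_left]
      intro a ha ha'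
      apply hkk
      unfold pr2 at ha ha'
      rw [List.mem_cons, List.mem_singleton] at ha ha'
      have e : (finProdFinEquiv.symm k : Iv m) = finProdFinEquiv.symm k' := by
        rcases ha with rfl | rfl <;> rcases ha' with h' | h' <;>
          · simp only [Sum.inl.injEq, Prod.mk.injEq] at h'
            exact h'.1
      exact finProdFinEquiv.symm.injective e
  · intro a i k hk
    by_cases ha : a ∈ hubL π x js
    · rw [if_pos ha] at hk
      exact absurd hk (by simp)
    · rw [if_neg ha] at hk
      have h1 := hcv a ha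
      rw [Option.some.inj hk] at h1
      exact h1
  · intro a
    by_cases ha : a ∈ hubL π x js
    · simp [ha]
    · simp [ha]
  · -- chain
    unfold hubL
    apply isChain_flatMap
    · intro k _
      unfold pr2
      rw [List.isChain_cons_cons]
      refine ⟨?_, List.isChain_singleton _⟩
      left
      refine ⟨_, _, _, _, _, rfl, rfl, ?_⟩
      have e : jn (fun t' => x (hv π (finProdFinEquiv.symm k) (0, t')))
          (fun t' => x (hv π (finProdFinEquiv.symm k) (1, t'))) =
          fun a => x (hv π (finProdFinEquiv.symm k) a) := by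
        funext a
        unfold jn
        obtain ⟨s, t'⟩ := a
        by_cases hs : s = 0
        · subst hs
          rw [if_pos rfl]
        · have hs1 : s = 1 := by
            apply Fin.ext
            have := s.isLt
            have h3 : s.val ≠ 0 := fun h => hs (Fin.ext h)
            show s.val = 1
            omega
          subst hs1
          rw [if_neg hs]
      rw [e]
      exact h _
    · intro k _
      unfold pr2
      simp
    · refine (finRange_chain _).imp ?_
      intro k k' hk a ha a' ha'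
      unfold pr2 at ha ha'
      simp only [List.getLast?_cons_cons, List.getLast?_singleton, Option.mem_def,
        Option.some.injEq, List.head?_cons] at ha ha'
      subst ha ha'
      right
      refine ⟨_, _, _, _, _, _, ?_, rfl, rfl⟩
      rw [ord_symm, ord_symm]
      exact hk.symm
  · intro a ha
    unfold hubL at ha
    rw [head?_flatMap_ne _ _ (by intro k _; simp [pr2])] at ha
    simp only [Option.mem_def, Option.bind_eq_some_iff] at ha
    obtain ⟨k, hk, ha⟩ := ha
    have h1 := finRange_head? _ k (by simpa using hk)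
    unfold pr2 at ha
    simp only [List.head?_cons, Option.some.injEq] at ha
    subst ha
    refine ⟨_, _, _, ?_, rfl⟩
    rw [ord_symm, h1]
  · intro a ha
    unfold hubL at ha
    rw [getLast?_flatMap_ne _ _ (by intro k _; simp [pr2])] at ha
    simp only [Option.mem_def, Option.bind_eq_some_iff] at ha
    obtain ⟨k, hk, ha⟩ := ha
    have h1 := finRange_getLast? _ k (by simpa using hk)
    unfold pr2 at ha
    simp only [List.getLast?_cons_cons, List.getLast?_singleton, Option.some.injEq] at ha
    subst ha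
    refine ⟨_, _, _, ?_, rfl⟩
    rw [ord_symm, h1]
  · intro he
    exfalso
    have : (Sum.inl ((0, ⟨0, hm⟩), 0, (fun t' => x (hv π (0, ⟨0, hm⟩) (0, t'))), js 0) :
        LeafD m t b2 u) ∈ hubL π x js := by
      rw [mem_hubL]
      exact ⟨_, _, rfl⟩
    rw [he] at this
    exact absurd this (by simp)

end

end Pool.Agent.TH708.Ham
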