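import Pool.Agent.TH708.Ham.H2
import Pool.Agent.W969.MC.Ham3

/-! Hamilton cycles: graphs on `Fin n`, monotone and narrow encoding. -/

set_option autoImplicit false
set_option linter.unusedSectionVars false
set_option linter.unusedVariables false

namespace Pool.Agent.TH708.Ham

open Finset Pool.Agent.H545R2 Pool.Agent.H560R2 Pool.Agent.W969.MC

section

variable {m t b2 u B R n zf : ℕ} (π : Fin 2 → Av b2 → Equiv.Perm (Fin m))
  (eR : RowD m t u ≃ Fin B) (eP : PosD b2 t u ≃ Fin R)
  (ι : SegV (Sg B R 1 (LeafD m t b2 u)) zf ≃ Fin n)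

/-- the gadget graph -/
def gG (y : CpD u → Set (Iv m × (Av b2 → (Fin t → Bool)))) :
    SimpleGraph (SegV (Sg B R 1 (LeafD m t b2 u)) zf) :=
  segGraph (GR (atnD π eR eP) (fun _ _ _ => True) HsD HeD (HhD y) False) .fin zf

/-- the bits of the gadget graph -/
noncomputable def ench (y : CpD u → Set (Iv m × (Av b2 → (Fin t → Bool))))
    (e : {e : Finset (Fin n) // e.card = 2}) : Bool :=
  @decide (∃ v w, e.1 = {ι v, ι w} ∧ (gG π eR eP (zf := zf) y).Adj v w)
    (Classical.propDecidable _)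

lemma ench_adj (y : CpD u → Set (Iv m × (Av b2 → (Fin t → Bool))))
    (v w : SegV (Sg B R 1 (LeafD m t b2 u)) zf) :
    (grf (ench π eR eP ι y)).Adj (ι v) (ι w) ↔ (gG π eR eP (zf := zf) y).Adj v w := by
  classical
  constructor
  · rintro ⟨h, hx⟩
    obtain ⟨v', w', h1, h2⟩ := @of_decide_eq_true _ (Classical.propDecidable _) hx
    have h3 : ({ι v, ι w} : Finset (Fin n)) = {ι v', ι w'} := h1
    have h4 : ({v, w} : Finset (SegV (Sg B R 1 (LeafD m t b2 u)) zf)) = {v', w'} := by
      apply Finset.map_injective ι.toEmbedding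
      rw [Finset.map_insert, Finset.map_singleton, Finset.map_insert, Finset.map_singleton]
      exact h3
    have hv : v ∈ ({v', w'} : Finset (SegV (Sg B R 1 (LeafD m t b2 u)) zf)) := by
      rw [← h4]; exact Finset.mem_insert_self _ _
    have hw : w ∈ ({v', w'} : Finset (SegV (Sg B R 1 (LeafD m t b2 u)) zf)) := by
      rw [← h4]; exact Finset.mem_insert_of_mem (Finset.mem_singleton_self _)
    rw [Finset.mem_insert, Finset.mem_singleton] at hv hw
    have hne : v ≠ w := fun hh => h (by rw [hh])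
    rcases hv with rfl | rfl <;> rcases hw with rfl | rfl
    · exact absurd rfl hne
    · exact h2
    · exact h2.symm
    · exact absurd rfl hne
  · intro h
    refine ⟨fun hh => h.ne (ι.injective hh), ?_⟩
    exact @decide_eq_true _ (Classical.propDecidable _) ⟨v, w, rfl, h⟩

lemma ench_ham (y : CpD u → Set (Iv m × (Av b2 → (Fin t → Bool)))) :
    (grf (ench π eR eP ι y)).IsHamiltonian ↔ (gG π eR eP (zf := zf) y).IsHamiltonian := by
  symm
  apply ham_iso
  exact ⟨ι, fun {v w} => ench_adj π eR eP ι y v w⟩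

lemma ench_mono {y y' : CpD u → Set (Iv m × (Av b2 → (Fin t → Bool)))}
    (hy : ∀ j, y j ⊆ y' j) (e : {e : Finset (Fin n) // e.card = 2}) :
    ench π eR eP ι y e ≤ ench π eR eP ι y' e := by
  classical
  rw [Bool.le_iff_imp]
  intro h
  obtain ⟨v, w, h1, h2⟩ := @of_decide_eq_true _ (Classical.propDecidable _) h
  apply @decide_eq_true _ (Classical.propDecidable _)
  refine ⟨v, w, h1, Adj_congr h2 ?_⟩
  rintro a a' - (⟨i, ρ, ρ', j, j', g1, g2, g3⟩ | h)
  · exact Or.inl ⟨i, ρ, ρ', j, j', g1, g2, hy _ g3⟩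
  · exact Or.inr h

lemma ench_narrow (y : CpD u → Set (Iv m × (Av b2 → (Fin t → Bool))))
    (J : CpD u) (e : {e : Finset (Fin n) // e.card = 2}) :
    ∃ T' : Finset (Iv m × (Av b2 → (Fin t → Bool))), T'.card ≤ 1 ∧
      ∀ x x' : Set (Iv m × (Av b2 → (Fin t → Bool))), (∀ e ∈ T', e ∈ x → e ∈ x') →
        ench π eR eP ι (Function.update y J x) e = true →
        ench π eR eP ι (Function.update y J x') e = true := by
  classical
  -- the tuple of the pair
  let Q : (Iv m × (Av b2 → (Fin t → Bool))) → Prop := fun τ => ∃ i ρ ρ',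
    τ = (i, jn ρ ρ') ∧ e.1 = {ι (Sum.inl (.leaf (Sum.inl (i, 0, ρ, J.1)), some true)),
      ι (Sum.inl (.leaf (Sum.inl (i, 1, ρ', J.2)), some false))}
  have hQ : ∀ τ τ', Q τ → Q τ' → τ = τ' := by
    rintro _ _ ⟨i, ρ, ρ', rfl, h1⟩ ⟨i1, ρ1, ρ1', rfl, h2⟩
    have h3 : ({ι (Sum.inl (.leaf (Sum.inl (i, 0, ρ, J.1)), some true)),
      ι (Sum.inl (.leaf (Sum.inl (i, 1, ρ', J.2)), some false))} : Finset (Fin n)) =
      {ι (Sum.inl (.leaf (Sum.inl (i1, 0, ρ1, J.1)), some true)),
      ι (Sum.inl (.leaf (Sum.inl (i1, 1, ρ1', J.2)), some false))} := h1.symm.trans h2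
    have h4 : ({Sum.inl (.leaf (Sum.inl (i, 0, ρ, J.1)), some true),
      Sum.inl (.leaf (Sum.inl (i, 1, ρ', J.2)), some false)} :
        Finset (SegV (Sg B R 1 (LeafD m t b2 u)) zf)) =
      {Sum.inl (.leaf (Sum.inl (i1, 0, ρ1, J.1)), some true),
      Sum.inl (.leaf (Sum.inl (i1, 1, ρ1', J.2)), some false)} := by
      apply Finset.map_injective ι.toEmbedding
      rw [Finset.map_insert, Finset.map_singleton, Finset.map_insert, Finset.map_singleton]
      exact h3
    have h5 : (Sum.inl (.leaf (Sum.inl (i, 0, ρ, J.1)), some true) :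
        SegV (Sg B R 1 (LeafD m t b2 u)) zf) ∈ ({Sum.inl (.leaf (Sum.inl (i1, 0, ρ1, J.1)),
          some true), Sum.inl (.leaf (Sum.inl (i1, 1, ρ1', J.2)), some false)} :
            Finset (SegV (Sg B R 1 (LeafD m t b2 u)) zf)) := by
      rw [← h4]; exact Finset.mem_insert_self _ _
    have h6 : (Sum.inl (.leaf (Sum.inl (i, 1, ρ', J.2)), some false) :
        SegV (Sg B R 1 (LeafD m t b2 u)) zf) ∈ ({Sum.inl (.leaf (Sum.inl (i1, 0, ρ1, J.1)),
          some true), Sum.inl (.leaf (Sum.inl (i1, 1, ρ1', J.2)), some false)} :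
            Finset (SegV (Sg B R 1 (LeafD m t b2 u)) zf)) := by
      rw [← h4]; exact Finset.mem_insert_of_mem (Finset.mem_singleton_self _)
    rw [Finset.mem_insert, Finset.mem_singleton] at h5 h6
    have h7 : i = i1 ∧ ρ = ρ1 := by
      rcases h5 with h5 | h5
      · have h8 := Sum.inl.inj h5
        simp only [Prod.mk.injEq, Sg.leaf.injEq, Sum.inl.injEq, true_and, and_true] at h8
        exact ⟨h8.1, h8.2⟩
      · exfalso
        have h8 := Sum.inl.inj h5
        simp only [Prod.mk.injEq, Option.some.injEq] at h8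
        exact absurd h8.2 (by decide)
    have h9 : ρ' = ρ1' := by
      rcases h6 with h6 | h6
      · exfalso
        have h8 := Sum.inl.inj h6
        simp only [Prod.mk.injEq, Option.some.injEq] at h8
        exact absurd h8.2 (by decide)
      · have h8 := Sum.inl.inj h6
        simp only [Prod.mk.injEq, Sg.leaf.injEq, Sum.inl.injEq, true_and, and_true] at h8
        exact h8.2
    rw [h7.1, h7.2, h9]
  refine ⟨if h : ∃ τ, Q τ then {h.choose} else ∅, ?_, ?_⟩
  · split_ifs
    · rw [Finset.card_singleton]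
    · simp
  · intro x x' hxx h
    obtain ⟨v, w, h1, h2⟩ := @of_decide_eq_true _ (Classical.propDecidable _) h
    apply @decide_eq_true _ (Classical.propDecidable _)
    refine ⟨v, w, h1, Adj_congr h2 ?_⟩
    rintro a a' hvw (⟨i, ρ, ρ', j, j', g1, g2, g3⟩ | h)
    · refine Or.inl ⟨i, ρ, ρ', j, j', g1, g2, ?_⟩
      by_cases hj : (j, j') = J
      · subst hj
        rw [Function.update_self] at g3 ⊢
        have hq : Q (i, jn ρ ρ') := by
          refine ⟨i, ρ, ρ', rfl, ?_⟩
          rw [h1]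
          rcases hvw with ⟨rfl, rfl⟩ | ⟨rfl, rfl⟩
          · rw [g1, g2]
          · rw [g1, g2]
            exact Finset.pair_comm _ _
        have hex : ∃ τ, Q τ := ⟨_, hq⟩
        apply hxx _ _ g3
        rw [dif_pos hex, Finset.mem_singleton]
        exact hQ _ _ hq hex.choose_spec
      · rw [Function.update_of_ne hj] at g3 ⊢
        exact g3
    · exact Or.inr h

end

end Pool.Agent.TH708.Ham
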