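import Pool.Agent.TH708.Ham.H3
import Pool.Agent.W969.MC.Clq2
import Pool.Agent.W969.MC.Avg3

/-! Hamilton cycles, randomised circuits, many copies: the lower bound with integer parameters. -/

set_option autoImplicit false
set_option linter.unusedSectionVars false
set_option linter.unusedVariables false

namespace Pool.Agent.TH708.Ham

open Finset Pool.Agent.H545R2 Pool.Agent.H560R2 Pool.Agent.W969.MC

/-- the number of segments of the gadget -/
def nsegD (m t b2 u : ℕ) : ℕ :=
  (m * t + 4 * m * u) * (3 * (2 * (2 * b2) * (2 ^ t) ^ b2 * 2 ^ u + 4) + 1) +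
    (m * t + 4 * m * u) * (2 * (1 + 1)) +
    (2 * m * 2 * (2 ^ t) ^ b2 * 2 ^ u + 4 * m * u * 2 + 1)

lemma card_rowD (m t u : ℕ) : Fintype.card (RowD m t u) = m * t + 4 * m * u := by
  simp only [Fintype.card_sum, Fintype.card_prod, Fintype.card_fin]
  ring

lemma card_posD (b2 t u : ℕ) :
    Fintype.card (PosD b2 t u) = 2 * (2 * b2) * (2 ^ t) ^ b2 * 2 ^ u + 4 := by
  simp only [Fintype.card_sum, Fintype.card_prod, Fintype.card_fin, Fintype.card_bool,
    Fintype.card_fun]
  ring

lemma card_leafD (m t b2 u : ℕ) :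
    Fintype.card (LeafD m t b2 u) = 2 * m * 2 * (2 ^ t) ^ b2 * 2 ^ u + 4 * m * u * 2 := by
  simp only [Fintype.card_sum, Fintype.card_prod, Fintype.card_fin, Fintype.card_bool,
    Fintype.card_fun]
  ring

/-- the lower bound for Hamiltonicity with integer parameters -/
theorem ham_curve_param {n : ℕ} {R' : Type} [Fintype R'] [Nonempty R'] {b2 b t u M m s w : ℕ}
    (P : Pars 2 b2 b (2 ^ t) M m s w)
    (hn : 3 * nsegD m t b2 u ≤ n) (ht : 0 < t)
    (C : R' → RC {e : Finset (Fin n) // e.card = 2}) (A0 g : ℝ)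
    (hyes : ∀ x, (grf x).IsHamiltonian →
      (A0 + g) * Fintype.card R' ≤ ({ρ : R' | (C ρ).acc x}.ncard : ℝ))
    (hno : ∀ x, ¬ (grf x).IsHamiltonian →
      ({ρ : R' | (C ρ).acc x}.ncard : ℝ) ≤ A0 * Fintype.card R')
    (hfree : ∀ ρ, ((C ρ).free : ℝ) ≤ (g / 2) * (2 ^ u * 2 ^ u : ℕ))
    (hlen : ∀ ρ, (C ρ).size ≤ (2 ^ t + 1) ^ m) (hq : 16 / ((2 ^ t : ℕ) : ℝ) ≤ g)
    (hlt : ∀ ρ, 16 * ((C ρ).size : ℝ) * 2 ^ (w / (2 * b) / b + 1) <
      g * ((2 ^ t : ℕ) : ℝ) ^ (w / (2 * b) / b + 1)) : False := by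
  classical
  have hcard : Fintype.card (Av b2) = b + 2 := by
    rw [Fintype.card_prod, Fintype.card_fin, Fintype.card_fin, P.hrb]
  obtain ⟨π, hπ⟩ := exists_expd_perm (A := Av b2) b s m P.hb hcard P.hs P.hm
  have hΛ : Fintype.card (Fin t → Bool) = 2 ^ t := by
    simp only [Fintype.card_fun, Fintype.card_fin, Fintype.card_bool]
  have hG : Good (hv π) (Fin t → Bool) b s w := by
    refine ⟨P.hb, hcard, hπ, P.hw, P.hws, ?_, ?_, ?_, ?_⟩
    · rw [Fintype.card_fin]; exact P.hm
    · rw [Fintype.card_fin, Fintype.card_prod, Fintype.card_fin, Fintype.card_fin]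
    · rw [hΛ]; exact P.hq
    · rw [Fintype.card_fin, hΛ]; exact P.hstar
  have hne : Nonempty (Av b2) := ⟨(0, ⟨0, P.hb2⟩)⟩
  obtain ⟨eR⟩ : Nonempty (RowD m t u ≃ Fin (Fintype.card (RowD m t u))) :=
    ⟨Fintype.equivFin _⟩
  obtain ⟨eP⟩ : Nonempty (PosD b2 t u ≃ Fin (Fintype.card (PosD b2 t u))) :=
    ⟨Fintype.equivFin _⟩
  set B := Fintype.card (RowD m t u) with hB
  set R := Fintype.card (PosD b2 t u) with hR
  have hBpos : 0 < B := by
    rw [hB, card_rowD]
    have := Nat.mul_pos P.hm ht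
    omega
  have hseg : Fintype.card (Sg B R 1 (LeafD m t b2 u)) = nsegD m t b2 u := by
    rw [card_sg, hB, hR, card_rowD, card_posD, card_leafD]
    rfl
  set zf := n - 3 * nsegD m t b2 u with hzf
  have hV : Fintype.card (SegV (Sg B R 1 (LeafD m t b2 u)) zf) = Fintype.card (Fin n) := by
    rw [Fintype.card_sum, Fintype.card_prod, Fintype.card_option, Fintype.card_bool, hseg,
      Fintype.card_fin, Fintype.card_fin]
    omega
  obtain ⟨ι⟩ : Nonempty (SegV (Sg B R 1 (LeafD m t b2 u)) zf ≃ Fin n) :=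
    ⟨Fintype.equivOfCardEq hV⟩
  obtain ⟨ej⟩ : Nonempty (Fin (2 ^ u * 2 ^ u) ≃ CpD u) :=
    ⟨Fintype.equivOfCardEq (by
      simp only [Fintype.card_prod, Fintype.card_fun, Fintype.card_fin, Fintype.card_bool])⟩
  have hham : ∀ y : Fin (2 ^ u * 2 ^ u) → Set (Iv m × (Av b2 → (Fin t → Bool))),
      (grf (ench π eR eP ι (fun j => y (ej.symm j)))).IsHamiltonian ↔
      ∃ j, ∃ p : Fin m → (Fin t → Bool), (tu (hv π) (gr p) :
        Set (Iv m × (Av b2 → (Fin t → Bool)))) ⊆ y j := by
    intro y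
    rw [ench_ham]
    constructor
    · intro h
      obtain ⟨js, x, hx⟩ := ham_fwd π _ eR eP P.hb2.ne' zf h P.hm
      refine ⟨ej.symm (js 0, js 1), x, ?_⟩
      rintro ⟨i, f⟩ hf
      rw [Finset.mem_coe, mem_tu] at hf
      have e : f = fun a => x (hv π i a) := by
        funext a
        have := hf a
        rw [mem_gr] at this
        exact this.symm
      rw [e]
      exact hx i
    · rintro ⟨j, x, hx⟩
      refine ham_back π _ eR eP P.hb2.ne' P.hm hBpos zf ![(ej j).1, (ej j).2] x ?_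
      intro i
      show (i, fun a => x (hv π i a)) ∈ y (ej.symm ((ej j).1, (ej j).2))
      rw [Prod.mk.eta, Equiv.symm_apply_apply]
      apply hx
      rw [Finset.mem_coe, mem_tu]
      intro a
      rw [mem_gr]
  refine csp_rand hG (m' := 2 ^ u * 2 ^ u) C
    (fun y => ench π eR eP ι (fun j => y (ej.symm j))) ?_ ?_ A0 g ?_ ?_ hfree
    (by rw [hΛ, Fintype.card_fin]; exact hlen)
    (by rw [hΛ]; exact hq)
    (by rw [hΛ]; exact hlt)
  · intro y y' hy p
    exact ench_mono π eR eP ι (fun j => hy (ej.symm j)) p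
  · intro y J p
    have hup : ∀ x : Set (Iv m × (Av b2 → (Fin t → Bool))),
        (fun j => Function.update y J x (ej.symm j)) =
        Function.update (fun j => y (ej.symm j)) (ej J) x := by
      intro x
      funext j
      by_cases hj : j = ej J
      · subst hj
        rw [Function.update_self, Equiv.symm_apply_apply, Function.update_self]
      · rw [Function.update_of_ne hj, Function.update_of_ne]
        intro h
        exact hj (by rw [← h, Equiv.apply_symm_apply])
    obtain ⟨T', h1, h2⟩ := ench_narrow π eR eP ι (fun j => y (ej.symm j)) (ej J) p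
    refine ⟨T', h1, fun x x' hxx => ?_⟩
    show ench π eR eP ι (fun j => Function.update y J x (ej.symm j)) p = true →
      ench π eR eP ι (fun j => Function.update y J x' (ej.symm j)) p = true
    rw [hup, hup]
    exact h2 x x' hxx
  · intro y hy
    exact hyes _ ((hham y).mpr hy)
  · intro y hy
    exact hno _ (fun hh => hy ((hham y).mp hh))

end Pool.Agent.TH708.Ham
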