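import Pool.Agent.TH708.Ham.H4
import Pool.Agent.TH708.Ham.Par

/-! The trade-off between the size and the number of further gates for Hamiltonicity. -/

set_option autoImplicit false
set_option linter.unusedSectionVars false
set_option linter.unusedVariables false

namespace Pool.Agent.TH708.Ham

open Finset Pool.Agent.H560R2 Pool.Agent.W969.MC

lemma nsegD_le {m t b2 u : ℕ} (hm : 0 < m) (hb2 : 0 < b2) :
    nsegD m t b2 u ≤ 130 * b2 * (t + u + 1) * (m * ((2 ^ t) ^ b2 * 2 ^ u)) := by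
  unfold nsegD
  set X := (2 ^ t) ^ b2 * 2 ^ u with hX
  have hXpos : 1 ≤ X := Nat.mul_pos (by positivity) (by positivity)
  have e1 : 2 * (2 * b2) * (2 ^ t) ^ b2 * 2 ^ u = 4 * b2 * X := by rw [hX]; ring
  have e2 : 2 * m * 2 * (2 ^ t) ^ b2 * 2 ^ u = 4 * m * X := by rw [hX]; ring
  rw [e1, e2]
  have h1 : 3 * (4 * b2 * X + 4) + 1 + 2 * (1 + 1) ≤ 29 * (b2 * X) := by
    have h3 : 1 ≤ b2 * X := Nat.mul_pos hb2 hXpos
    have h4 : 3 * (4 * b2 * X + 4) + 1 + 2 * (1 + 1) = 12 * (b2 * X) + 17 := by ring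
    omega
  have h2 : m * t + 4 * m * u ≤ 4 * m * (t + u + 1) := by nlinarith
  have h3 : (m * t + 4 * m * u) * (3 * (4 * b2 * X + 4) + 1) + (m * t + 4 * m * u) * (2 * (1 + 1)) ≤
      116 * (b2 * (t + u + 1) * (m * X)) := by
    calc (m * t + 4 * m * u) * (3 * (4 * b2 * X + 4) + 1) + (m * t + 4 * m * u) * (2 * (1 + 1)) =
        (m * t + 4 * m * u) * (3 * (4 * b2 * X + 4) + 1 + 2 * (1 + 1)) := by ring
      _ ≤ (4 * m * (t + u + 1)) * (29 * (b2 * X)) := Nat.mul_le_mul h2 h1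
      _ = 116 * (b2 * (t + u + 1) * (m * X)) := by ring
  have h4 : 4 * m * X + 4 * m * u * 2 + 1 ≤ 14 * ((t + u + 1) * (m * X)) := by
    have h5 : 1 ≤ m * X := Nat.mul_pos hm hXpos
    have h6 : m * u ≤ m * X * u := by
      calc m * u = m * 1 * u := by ring
        _ ≤ m * X * u := Nat.mul_le_mul_right _ (Nat.mul_le_mul_left _ hXpos)
    have h7 : 0 ≤ t * (m * X) := Nat.zero_le _
    nlinarith
  have h5 : 14 * ((t + u + 1) * (m * X)) ≤ 14 * (b2 * (t + u + 1) * (m * X)) := by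
    apply Nat.mul_le_mul_left
    apply Nat.mul_le_mul_right
    exact Nat.le_mul_of_pos_left _ hb2
  calc _ ≤ 116 * (b2 * (t + u + 1) * (m * X)) + 14 * (b2 * (t + u + 1) * (m * X)) :=
        Nat.add_le_add h3 (h4.trans h5)
    _ = _ := by ring

/-- The trade-off. -/
theorem ham_curve_rand (ε : ℝ) (hε : 0 < ε) :
    ∃ δ : ℝ, 0 < δ ∧ ∃ l0 : ℕ, ∀ n l : ℕ, l0 ≤ l → l ≤ n →
      ∀ F : ℝ, (l : ℝ) ^ 3 * max F 1 ≤ (n : ℝ) ^ (2 - ε) →
      ∀ (R : Type) [Fintype R] [Nonempty R] (C : R → RC {e : Finset (Fin n) // e.card = 2})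
        (A0 : ℝ),
        (∀ x, (grf x).IsHamiltonian →
          (A0 + (n : ℝ) ^ (-δ)) * Fintype.card R ≤ ({ρ : R | (C ρ).acc x}.ncard : ℝ)) →
        (∀ x, ¬ (grf x).IsHamiltonian →
          ({ρ : R | (C ρ).acc x}.ncard : ℝ) ≤ A0 * Fintype.card R) →
        (∀ ρ, ((C ρ).free : ℝ) ≤ F) →
        ∃ ρ, (n : ℝ) ^ (δ * l) ≤ ((C ρ).size : ℝ) := by
  -- it suffices to consider small ε
  wlog hε1 : ε ≤ 1 with Hw
  · obtain ⟨δ, hδ, l0, H⟩ := Hw 1 one_pos le_rfl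
    refine ⟨δ, hδ, max l0 1, ?_⟩
    intro n l hl hln F hF
    refine H n l ((le_max_left _ _).trans hl) hln F (hF.trans ?_)
    push Not at hε1
    apply Real.rpow_le_rpow_of_exponent_le
    · have h1 : 1 ≤ l := (le_max_right _ _).trans hl
      exact_mod_cast h1.trans hln
    · linarith
  obtain ⟨b2, hb2, δ, hδ, l0, H⟩ := pars_curveD 0 2 (by norm_num) (ε / 2) (by positivity)
    (by linarith)
  obtain ⟨l1, Hab⟩ := absorb hδ
  obtain ⟨n1, hn1⟩ := ev_rpow (η := 1 / 8) (by norm_num) 2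
  obtain ⟨n2, hn2⟩ := ev_rpow (η := ε / 4) (by positivity) 4
  obtain ⟨n3, hn3⟩ := ev_rpow (η := ε / 16) (by positivity) (98 * b2 * (2 / (ε / 16) + 1))
  obtain ⟨n4, hn4⟩ := ev_rpow (η := 3 * δ / 4) (by positivity) 2
  refine ⟨δ / 8, by positivity, max (max (max l0 l1) (max n1 n2)) (max (max n3 n4) 1), ?_⟩
  intro n l hl hln F hF R _ _ C A0 hyes hno hfree
  have hll0 : l0 ≤ l := (le_max_left _ _).trans ((le_max_left _ _).trans ((le_max_left _ _).trans hl))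
  have hll1 : l1 ≤ l := (le_max_right _ _).trans ((le_max_left _ _).trans ((le_max_left _ _).trans hl))
  have g1 := hn1 n (((le_max_left _ _).trans ((le_max_right _ _).trans
    ((le_max_left _ _).trans hl))).trans hln)
  have g2 := hn2 n (((le_max_right _ _).trans ((le_max_right _ _).trans
    ((le_max_left _ _).trans hl))).trans hln)
  have g3 := hn3 n (((le_max_left _ _).trans ((le_max_left _ _).trans
    ((le_max_right _ _).trans hl))).trans hln)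
  have hl4 : n4 ≤ l := (le_max_right _ _).trans ((le_max_left _ _).trans
    ((le_max_right _ _).trans hl))
  have hl1 : 1 ≤ l := (le_max_right _ _).trans ((le_max_right _ _).trans hl)
  have hlR : (1 : ℝ) ≤ l := by exact_mod_cast hl1
  have hlpos : (0 : ℝ) < l := by linarith
  have hn1' : 1 ≤ n := hl1.trans hln
  have hnR : (1 : ℝ) ≤ n := by exact_mod_cast hn1'
  have hnpos : (0 : ℝ) < n := by linarith
  set n0 : ℕ := ⌊(n : ℝ) ^ (1 - ε / 8)⌋₊ with hn0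
  have k1 : (n0 : ℝ) ≤ (n : ℝ) ^ (1 - ε / 8) := Nat.floor_le (by positivity)
  have k2 : (n : ℝ) ^ (1 - ε / 8) - 1 < n0 := Nat.sub_one_lt_floor _
  have k3 : (2 : ℝ) ≤ (n : ℝ) ^ (1 - ε / 8) := by
    refine g1.trans (Real.rpow_le_rpow_of_exponent_le hnR ?_)
    linarith
  have k4 : (n : ℝ) ^ (1 - ε / 8) / 2 ≤ n0 := by linarith
  -- l is at most n0
  have k5 : (l : ℝ) ≤ (n : ℝ) ^ ((2 : ℝ) / 3) := by
    have h1 : (l : ℝ) ^ 3 ≤ (n : ℝ) ^ (2 - ε) := by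
      refine le_trans ?_ hF
      calc (l : ℝ) ^ 3 = (l : ℝ) ^ 3 * 1 := (mul_one _).symm
        _ ≤ (l : ℝ) ^ 3 * max F 1 := mul_le_mul_of_nonneg_left (le_max_right _ _) (by positivity)
    have h2 : (l : ℝ) ^ 3 ≤ ((n : ℝ) ^ ((2 : ℝ) / 3)) ^ 3 := by
      refine h1.trans ?_
      rw [← Real.rpow_natCast ((n : ℝ) ^ ((2 : ℝ) / 3)), ← Real.rpow_mul hnpos.le]
      apply Real.rpow_le_rpow_of_exponent_le hnR
      push_cast
      linarith
    exact le_of_pow_le_pow_left₀ (by norm_num) (by positivity) h2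
  have k6 : (n : ℝ) ^ ((3 : ℝ) / 4) ≤ n0 := by
    have h1 : 2 * (n : ℝ) ^ ((3 : ℝ) / 4) ≤ (n : ℝ) ^ (1 - ε / 8) := by
      calc 2 * (n : ℝ) ^ ((3 : ℝ) / 4) ≤ (n : ℝ) ^ ((1 : ℝ) / 8) * (n : ℝ) ^ ((3 : ℝ) / 4) :=
            mul_le_mul_of_nonneg_right g1 (by positivity)
        _ = (n : ℝ) ^ ((1 : ℝ) / 8 + 3 / 4) := (Real.rpow_add hnpos _ _).symm
        _ ≤ (n : ℝ) ^ (1 - ε / 8) := by
          apply Real.rpow_le_rpow_of_exponent_le hnR
          linarith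
    linarith
  have hln0 : l ≤ n0 := by
    have h1 : (l : ℝ) ≤ n0 := by
      refine k5.trans (le_trans ?_ k6)
      apply Real.rpow_le_rpow_of_exponent_le hnR
      norm_num
    exact_mod_cast h1
  have hn0R : (1 : ℝ) ≤ n0 := by
    have : 1 ≤ n0 := hl1.trans hln0
    exact_mod_cast this
  have hn0pos : (0 : ℝ) < n0 := by linarith
  -- the main condition
  have hmain : (l : ℝ) ^ (2 + 1) * max F ((n0 : ℝ) ^ 0) ≤
      (n0 : ℝ) ^ (((0 : ℕ) : ℝ) + ((2 : ℕ) : ℝ) - ε / 2) := by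
    rw [pow_zero]
    refine hF.trans ?_
    have h1 : ((n : ℝ) ^ (1 - ε / 8) / 2) ^ (((0 : ℕ) : ℝ) + ((2 : ℕ) : ℝ) - ε / 2) ≤
        (n0 : ℝ) ^ (((0 : ℕ) : ℝ) + ((2 : ℕ) : ℝ) - ε / 2) := by
      apply Real.rpow_le_rpow (by positivity) k4
      push_cast
      linarith
    refine le_trans ?_ h1
    rw [Real.div_rpow (by positivity) (by norm_num), ← Real.rpow_mul hnpos.le,
      le_div_iff₀ (by positivity)]
    have h2 : (2 : ℝ) ^ (((0 : ℕ) : ℝ) + ((2 : ℕ) : ℝ) - ε / 2) ≤ 4 := by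
      calc (2 : ℝ) ^ (((0 : ℕ) : ℝ) + ((2 : ℕ) : ℝ) - ε / 2) ≤ (2 : ℝ) ^ (2 : ℝ) := by
            apply Real.rpow_le_rpow_of_exponent_le (by norm_num)
            push_cast
            linarith
        _ = 4 := by norm_num
    calc (n : ℝ) ^ (2 - ε) * (2 : ℝ) ^ (((0 : ℕ) : ℝ) + ((2 : ℕ) : ℝ) - ε / 2) ≤
          (n : ℝ) ^ (2 - ε) * (n : ℝ) ^ (ε / 4) :=
          mul_le_mul_of_nonneg_left (h2.trans g2) (by positivity)
      _ = (n : ℝ) ^ (2 - ε + ε / 4) := (Real.rpow_add hnpos _ _).symm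
      _ ≤ _ := by
        apply Real.rpow_le_rpow_of_exponent_le hnR
        push_cast
        nlinarith [mul_pos hε hε]
  obtain ⟨b, t, M, m, sx, w, K1, κ, htpos, P, h1, h2, h3, h4, h5⟩ := H n0 l F hll0 hln0 hmain
  obtain ⟨a1, a2, a3⟩ := Hab n0 l (2 ^ t) m (w / (2 * b) / b + 1) hll1 hln0 (Nat.le_add_left 1 _)
    h2 h5
  have hmpos := P.hm
  have hM := P.hM
  -- the number of vertices
  have hmX : 8 * (m * ((2 ^ t) ^ b2 * 2 ^ κ)) ≤ n0 := by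
    have e2 : 8 * (m * ((2 ^ t) ^ b2 * 2 ^ κ)) ≤ 2 * (0 * K1 + 2 ^ κ * (M * (2 * (2 ^ t) ^ b2))) := by
      calc 8 * (m * ((2 ^ t) ^ b2 * 2 ^ κ)) = 4 * ((2 * m) * ((2 ^ t) ^ b2 * 2 ^ κ)) := by ring
        _ ≤ 4 * (M * ((2 ^ t) ^ b2 * 2 ^ κ)) := Nat.mul_le_mul_left _ (Nat.mul_le_mul_right _ hM)
        _ = 2 * (0 * K1 + 2 ^ κ * (M * (2 * (2 ^ t) ^ b2))) := by ring
    omega
  have hn0n : n0 ≤ n := by
    have h7 : (n0 : ℝ) ≤ n := by
      refine k1.trans ?_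
      calc (n : ℝ) ^ (1 - ε / 8) ≤ (n : ℝ) ^ (1 : ℝ) :=
            Real.rpow_le_rpow_of_exponent_le hnR (by linarith)
        _ = n := Real.rpow_one _
    exact_mod_cast h7
  have ht2n : 2 ^ t ≤ n := by
    have h7 : 2 ^ t ≤ (2 ^ t) ^ b2 := Nat.le_self_pow (by omega) _
    have h8 : (2 ^ t) ^ b2 ≤ 8 * (m * ((2 ^ t) ^ b2 * 2 ^ κ)) := by
      calc (2 ^ t) ^ b2 = 1 * (1 * ((2 ^ t) ^ b2 * 1)) := by ring
        _ ≤ 8 * (m * ((2 ^ t) ^ b2 * 2 ^ κ)) := Nat.mul_le_mul (by norm_num)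
          (Nat.mul_le_mul hmpos (Nat.mul_le_mul le_rfl Nat.one_le_two_pow))
    omega
  have hκ2n : 2 ^ κ ≤ n := by
    have h8 : 2 ^ κ ≤ 8 * (m * ((2 ^ t) ^ b2 * 2 ^ κ)) := by
      calc 2 ^ κ = 1 * (1 * (1 * 2 ^ κ)) := by ring
        _ ≤ 8 * (m * ((2 ^ t) ^ b2 * 2 ^ κ)) := Nat.mul_le_mul (by norm_num)
          (Nat.mul_le_mul hmpos (Nat.mul_le_mul (Nat.one_le_pow _ _ (by positivity)) le_rfl))
    omega
  have htn : t ≤ Nat.log 2 n := Nat.le_log_of_pow_le (by norm_num) ht2n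
  have hκn : κ ≤ Nat.log 2 n := Nat.le_log_of_pow_le (by norm_num) hκ2n
  have hseg : 3 * nsegD m t b2 κ ≤ n := by
    have h7 : 3 * nsegD m t b2 κ ≤ (49 * b2 * (2 * (Nat.log 2 n + 1))) * n0 := by
      calc 3 * nsegD m t b2 κ ≤
            3 * (130 * b2 * (t + κ + 1) * (m * ((2 ^ t) ^ b2 * 2 ^ κ))) :=
            Nat.mul_le_mul_left _ (nsegD_le hmpos hb2)
        _ ≤ (49 * b2 * (t + κ + 1)) * (8 * (m * ((2 ^ t) ^ b2 * 2 ^ κ))) := by
            have h8 : 3 * (130 * b2 * (t + κ + 1) * (m * ((2 ^ t) ^ b2 * 2 ^ κ))) =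
              390 * (b2 * (t + κ + 1) * (m * ((2 ^ t) ^ b2 * 2 ^ κ))) := by ring
            have h9 : (49 * b2 * (t + κ + 1)) * (8 * (m * ((2 ^ t) ^ b2 * 2 ^ κ))) =
              392 * (b2 * (t + κ + 1) * (m * ((2 ^ t) ^ b2 * 2 ^ κ))) := by ring
            rw [h8, h9]
            exact Nat.mul_le_mul_right _ (by norm_num)
        _ ≤ (49 * b2 * (2 * (Nat.log 2 n + 1))) * n0 := by
            apply Nat.mul_le_mul _ hmX
            apply Nat.mul_le_mul_left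
            omega
    have h8 : ((49 * b2 * (2 * (Nat.log 2 n + 1)) * n0 : ℕ) : ℝ) ≤ n := by
      push_cast
      have h9 := natlog_le (η := ε / 16) (by positivity) hn1'
      have h10 : (n : ℝ) = (n : ℝ) ^ (ε / 16) * ((n : ℝ) ^ (ε / 16) * (n : ℝ) ^ (1 - ε / 8)) := by
        rw [← Real.rpow_add hnpos, ← Real.rpow_add hnpos]
        have : ε / 16 + (ε / 16 + (1 - ε / 8)) = 1 := by ring
        rw [this, Real.rpow_one]
      calc 49 * (b2 : ℝ) * (2 * ((Nat.log 2 n : ℝ) + 1)) * n0 ≤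
            49 * (b2 : ℝ) * (2 * ((2 / (ε / 16) + 1) * (n : ℝ) ^ (ε / 16))) *
              (n : ℝ) ^ (1 - ε / 8) := by
            apply mul_le_mul _ k1 (Nat.cast_nonneg _) (by positivity)
            apply mul_le_mul_of_nonneg_left _ (by positivity)
            linarith
        _ = (98 * b2 * (2 / (ε / 16) + 1)) * ((n : ℝ) ^ (ε / 16) * (n : ℝ) ^ (1 - ε / 8)) := by ring
        _ ≤ (n : ℝ) ^ (ε / 16) * ((n : ℝ) ^ (ε / 16) * (n : ℝ) ^ (1 - ε / 8)) :=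
            mul_le_mul_of_nonneg_right g3 (by positivity)
        _ = n := h10.symm
    have h9 : 49 * b2 * (2 * (Nat.log 2 n + 1)) * n0 ≤ n := by exact_mod_cast h8
    exact h7.trans h9
  -- comparison of powers of n0 and n
  have k7 : (n : ℝ) ^ (δ / 8) ≤ (n0 : ℝ) ^ (δ / 4) := by
    calc (n : ℝ) ^ (δ / 8) = ((n : ℝ) ^ ((1 : ℝ) / 2)) ^ (δ / 4) := by
          rw [← Real.rpow_mul hnpos.le]
          congr 1
          ring
      _ ≤ (n0 : ℝ) ^ (δ / 4) := by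
        apply Real.rpow_le_rpow (by positivity) _ (by positivity)
        refine le_trans ?_ k6
        apply Real.rpow_le_rpow_of_exponent_le hnR
        norm_num
  have k8 : (n0 : ℝ) ^ (-(δ / 4)) ≤ (n : ℝ) ^ (-(δ / 8)) := by
    rw [Real.rpow_neg hn0pos.le, Real.rpow_neg hnpos.le]
    exact inv_anti₀ (by positivity) k7
  by_contra hcon
  push Not at hcon
  have hsz : ∀ ρ, ((C ρ).size : ℝ) < (n0 : ℝ) ^ (δ / 4 * l) := by
    intro ρ
    refine lt_of_lt_of_le (hcon ρ) ?_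
    rw [Real.rpow_mul hnpos.le, Real.rpow_mul hn0pos.le]
    exact Real.rpow_le_rpow (by positivity) k7 (by positivity)
  refine ham_curve_param P hseg htpos C A0 ((n0 : ℝ) ^ (-(δ / 4))) ?_ hno ?_
    (fun ρ => (a3 _ (hsz ρ)).1) a1 (fun ρ => (a3 _ (hsz ρ)).2)
  · intro x hx
    refine le_trans ?_ (hyes x hx)
    apply mul_le_mul_of_nonneg_right _ (Nat.cast_nonneg _)
    linarith
  · intro ρ
    refine (hfree ρ).trans ?_
    have hF0 : 0 ≤ F := (Nat.cast_nonneg _).trans (hfree ρ)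
    have e0 : K1 ^ 0 * (2 ^ κ) ^ 2 = 2 ^ κ * 2 ^ κ := by ring
    rw [e0] at h4
    have h6 : (n0 : ℝ) ^ (-(δ / 4)) / 2 * ((n0 : ℝ) ^ δ * F) ≤
        (n0 : ℝ) ^ (-(δ / 4)) / 2 * ((2 ^ κ * 2 ^ κ : ℕ) : ℝ) :=
      mul_le_mul_of_nonneg_left h4 (by positivity)
    refine le_trans ?_ h6
    have h7 : (n0 : ℝ) ^ (-(δ / 4)) / 2 * ((n0 : ℝ) ^ δ * F) = (n0 : ℝ) ^ (3 * δ / 4) / 2 * F := by
      have h8 : (n0 : ℝ) ^ (3 * δ / 4) = (n0 : ℝ) ^ (-(δ / 4)) * (n0 : ℝ) ^ δ := by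
        rw [← Real.rpow_add hn0pos]
        congr 1
        ring
      rw [h8]
      ring
    rw [h7]
    have h8 : (2 : ℝ) ≤ (n0 : ℝ) ^ (3 * δ / 4) := hn4 n0 (hl4.trans hln0)
    calc F = 1 * F := (one_mul _).symm
      _ ≤ (n0 : ℝ) ^ (3 * δ / 4) / 2 * F := by
        apply mul_le_mul_of_nonneg_right _ hF0
        linarith

end Pool.Agent.TH708.Ham
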